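import Pool.Agent.W586.SK.Stm2
import Pool.Agent.W108.SK.Bas

/-!
# Project SX, part BAS: stability of the class `Sx`
-/

set_option autoImplicit false

namespace Pool.Agent.W586.SXBas

open MeasureTheory Set
open scoped InnerProductSpace
open Pool.Agent.W586.SX
open Pool.Agent.W586.SK (E nm)
open Pool.Agent.H888R2.KT (St tw)

theorem absinv {n : ℕ} {σ : Equiv.Perm (Fin n)} {x y : E n} (hxy : ∀ i, y i = x (σ i)) :
    ∀ i, |y i| = |x (σ i)| := fun i => by rw [hxy i]

theorem sx_indicator {n : ℕ} (ρ : E n → ℝ) (h : Sx ρ) (S : Set (E n)) (hc : Convex ℝ S)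
    (hm : MeasurableSet S)
    (hi : ∀ σ : Equiv.Perm (Fin n), ∀ x y : E n, (∀ i, y i = x (σ i)) → (y ∈ S ↔ x ∈ S)) :
    Sx (S.indicator ρ) := by
  have hnn : ∀ x, 0 ≤ S.indicator ρ x := fun x => Set.indicator_nonneg (fun y _ => h.nonneg y) x
  refine ⟨hnn, h.meas.indicator hm, ?_, ?_⟩
  · intro x y t ht0 ht1
    by_cases hx : x ∈ S
    · by_cases hy : y ∈ S
      · have hxy : (1 - t) • x + t • y ∈ S :=
          hc hx hy (by linarith) (by linarith) (by ring)
        rw [Set.indicator_of_mem hx, Set.indicator_of_mem hy, Set.indicator_of_mem hxy]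
        exact h.logc x y t ht0 ht1
      · rw [Set.indicator_of_notMem hy, Real.zero_rpow (by linarith), mul_zero]
        exact hnn _
    · rw [Set.indicator_of_notMem hx, Real.zero_rpow (by linarith), zero_mul]
      exact hnn _
  · intro σ x y hxy
    by_cases hx : x ∈ S
    · rw [Set.indicator_of_mem hx, Set.indicator_of_mem ((hi σ x y hxy).2 hx)]
      exact h.inv σ x y hxy
    · rw [Set.indicator_of_notMem hx, Set.indicator_of_notMem (fun hy => hx ((hi σ x y hxy).1 hy))]

theorem ee_apply {n : ℕ} (i : Fin n) : (ee n) i = 1 / Real.sqrt n := rfl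

theorem inner_ee {n : ℕ} (x : E n) : ⟪ee n, x⟫_ℝ = (1 / Real.sqrt n) * ∑ i, x i := by
  rw [PiLp.inner_apply, Finset.mul_sum]
  refine Finset.sum_congr rfl fun i _ => ?_
  rw [ee_apply]
  simp [mul_comm]

theorem inner_inv {n : ℕ} (σ : Equiv.Perm (Fin n)) (x y : E n) (hxy : ∀ i, y i = x (σ i)) :
    ⟪ee n, y⟫_ℝ = ⟪ee n, x⟫_ℝ := by
  rw [inner_ee, inner_ee]
  congr 1
  rw [Finset.sum_congr rfl fun i _ => hxy i]
  exact Equiv.sum_comp σ fun i => x i

theorem bas : S_BAS := by
  intro n ρ h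
  refine ⟨?_, ?_, ?_, ?_, ?_⟩
  · intro r
    refine sx_indicator ρ h _ (Pool.Agent.W108.SK.convex_nm r) ?_ ?_
    · exact (isClosed_le Pool.Agent.W108.SK.continuous_nm continuous_const).measurableSet
    · intro σ x y hxy
      simp only [Set.mem_ofPred_eq]
      rw [Pool.Agent.W108.SK.nm_inv σ x y (absinv hxy)]
  · intro r
    refine sx_indicator ρ h _ ?_ ?_ ?_
    · have : {x : E n | ‖x‖ ≤ r} = Metric.closedBall 0 r := by
        ext x
        simp
      rw [this]
      exact convex_closedBall 0 r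
    · exact (isClosed_le continuous_norm continuous_const).measurableSet
    · intro σ x y hxy
      simp only [Set.mem_ofPred_eq]
      rw [Pool.Agent.W108.SK.norm_inv σ x y (absinv hxy)]
  · intro c hc
    refine ⟨fun x => mul_nonneg hc (h.nonneg x), h.meas.const_mul c, ?_, ?_⟩
    · intro x y t ht0 ht1
      have h1 := h.logc x y t ht0 ht1
      rw [Real.mul_rpow hc (h.nonneg x), Real.mul_rpow hc (h.nonneg y)]
      rcases hc.eq_or_lt with h0 | h0
      · subst h0
        rw [Real.zero_rpow (by linarith), Real.zero_rpow (by linarith)]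
        simp
      · have h2 : c ^ (1 - t) * c ^ t = c := by
          rw [← Real.rpow_add h0]
          norm_num
        calc c ^ (1 - t) * ρ x ^ (1 - t) * (c ^ t * ρ y ^ t)
            = (c ^ (1 - t) * c ^ t) * (ρ x ^ (1 - t) * ρ y ^ t) := by ring
          _ = c * (ρ x ^ (1 - t) * ρ y ^ t) := by rw [h2]
          _ ≤ c * ρ ((1 - t) • x + t • y) := mul_le_mul_of_nonneg_left h1 hc
    · intro σ x y hxy
      show c * ρ y = c * ρ x
      rw [h.inv σ x y hxy]
  · intro c
    refine ⟨fun x => h.nonneg _, h.meas.comp (by fun_prop), ?_, ?_⟩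
    · intro x y t ht0 ht1
      have h1 := h.logc (x + c • ee n) (y + c • ee n) t ht0 ht1
      have e : (1 - t) • (x + c • ee n) + t • (y + c • ee n) =
          (1 - t) • x + t • y + c • ee n := by
        module
      rw [e] at h1
      exact h1
    · intro σ x y hxy
      refine h.inv σ _ _ fun i => ?_
      show y i + c * (ee n) i = x (σ i) + c * (ee n) (σ i)
      rw [hxy i, ee_apply, ee_apply]
  · intro K hK τ hn
    have hpos : ∀ x : E n, 0 < tw (fun _ : Fin 1 => ee n) K τ x := fun x => Real.exp_pos _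
    have htw : ∀ x : E n, tw (fun _ : Fin 1 => ee n) K τ x =
        Real.exp (-((⟪ee n, x⟫_ℝ - τ 0) ^ 2 / (2 * K))) := by
      intro x
      unfold tw
      rw [Fin.sum_univ_one]
    refine ⟨⟨fun x => mul_nonneg (h.nonneg x) (hpos x).le, h.meas.mul ?_, ?_, ?_⟩, ?_⟩
    · apply Continuous.measurable
      unfold tw
      fun_prop
    · intro x y t ht0 ht1
      have h1 := h.logc x y t ht0 ht1
      rw [Real.mul_rpow (h.nonneg x) (hpos x).le, Real.mul_rpow (h.nonneg y) (hpos y).le]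
      have h2 : tw (fun _ : Fin 1 => ee n) K τ x ^ (1 - t) *
          tw (fun _ : Fin 1 => ee n) K τ y ^ t ≤
          tw (fun _ : Fin 1 => ee n) K τ ((1 - t) • x + t • y) := by
        rw [htw, htw, htw, ← Real.exp_mul, ← Real.exp_mul, ← Real.exp_add, Real.exp_le_exp,
          inner_add_right, inner_smul_right, inner_smul_right]
        have hp : 0 ≤ (1 - t) * t * (⟪ee n, x⟫_ℝ - ⟪ee n, y⟫_ℝ) ^ 2 / (2 * K) := by
          have : 0 ≤ 1 - t := by linarith
          positivity
        have e : (-((⟪ee n, x⟫_ℝ - τ 0) ^ 2 / (2 * K))) * (1 - t) +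
            (-((⟪ee n, y⟫_ℝ - τ 0) ^ 2 / (2 * K))) * t =
            -(((1 - t) * ⟪ee n, x⟫_ℝ + t * ⟪ee n, y⟫_ℝ - τ 0) ^ 2 / (2 * K)) -
              (1 - t) * t * (⟪ee n, x⟫_ℝ - ⟪ee n, y⟫_ℝ) ^ 2 / (2 * K) := by
          field_simp
          ring
        rw [e]
        linarith
      calc ρ x ^ (1 - t) * tw (fun _ : Fin 1 => ee n) K τ x ^ (1 - t) *
            (ρ y ^ t * tw (fun _ : Fin 1 => ee n) K τ y ^ t)
          = (ρ x ^ (1 - t) * ρ y ^ t) * (tw (fun _ : Fin 1 => ee n) K τ x ^ (1 - t) *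
            tw (fun _ : Fin 1 => ee n) K τ y ^ t) := by ring
        _ ≤ ρ ((1 - t) • x + t • y) * tw (fun _ : Fin 1 => ee n) K τ ((1 - t) • x + t • y) :=
            mul_le_mul h1 h2 (mul_nonneg (Real.rpow_nonneg (hpos x).le _)
              (Real.rpow_nonneg (hpos y).le _)) (h.nonneg _)
    · intro σ x y hxy
      show ρ y * tw _ K τ y = ρ x * tw _ K τ x
      rw [h.inv σ x y hxy, htw, htw, inner_inv σ x y hxy]
    · intro x y
      show ρ x * tw (fun _ : Fin 1 => ee n) K τ x * (ρ y * tw (fun _ : Fin 1 => ee n) K τ y) ≤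
        (ρ ((1 / 2 : ℝ) • (x + y)) * tw (fun _ : Fin 1 => ee n) K τ ((1 / 2 : ℝ) • (x + y))) ^ 2 *
          Real.exp (-((∑ _j : Fin 1, ⟪ee n, x - y⟫_ℝ ^ 2) / (4 * K)))
      have h1 := h.logc x y (1 / 2) (by norm_num) (by norm_num)
      have e1 : (1 - 1 / 2 : ℝ) • x + (1 / 2 : ℝ) • y = (1 / 2 : ℝ) • (x + y) := by
        module
      rw [e1] at h1
      have h2 : ρ x * ρ y ≤ ρ ((1 / 2 : ℝ) • (x + y)) ^ 2 := by
        have h3 := pow_le_pow_left₀ (mul_nonneg (Real.rpow_nonneg (h.nonneg x) _)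
          (Real.rpow_nonneg (h.nonneg y) _)) h1 2
        refine le_trans (le_of_eq ?_) h3
        rw [mul_pow, ← Real.rpow_natCast, ← Real.rpow_natCast, ← Real.rpow_mul (h.nonneg x),
          ← Real.rpow_mul (h.nonneg y)]
        norm_num
      have h3 : tw (fun _ : Fin 1 => ee n) K τ x * tw (fun _ : Fin 1 => ee n) K τ y =
          tw (fun _ : Fin 1 => ee n) K τ ((1 / 2 : ℝ) • (x + y)) ^ 2 *
            Real.exp (-((∑ _j : Fin 1, ⟪ee n, x - y⟫_ℝ ^ 2) / (4 * K))) := by
        rw [htw, htw, htw, Fin.sum_univ_one, ← Real.exp_add,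
          pow_two (Real.exp (-((⟪ee n, (1 / 2 : ℝ) • (x + y)⟫_ℝ - τ 0) ^ 2 / (2 * K)))),
          ← Real.exp_add, ← Real.exp_add, inner_smul_right, inner_add_right, inner_sub_right]
        congr 1
        field_simp
        ring
      rw [mul_pow]
      calc ρ x * tw (fun _ : Fin 1 => ee n) K τ x * (ρ y * tw (fun _ : Fin 1 => ee n) K τ y)
          = (ρ x * ρ y) * (tw (fun _ : Fin 1 => ee n) K τ x *
            tw (fun _ : Fin 1 => ee n) K τ y) := by ring
        _ ≤ ρ ((1 / 2 : ℝ) • (x + y)) ^ 2 * (tw (fun _ : Fin 1 => ee n) K τ x *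
            tw (fun _ : Fin 1 => ee n) K τ y) :=
            mul_le_mul_of_nonneg_right h2 (mul_nonneg (hpos x).le (hpos y).le)
        _ = _ := by rw [h3]; ring

end Pool.Agent.W586.SXBas
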