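import Pool.Agent.W586.SK.Stm
import Pool.Agent.H888R2.KC.G1
import Pool.Agent.H888R2.KT.G2
import Pool.Agent.H212R2.KLS.S1
import Pool.Agent.H212R2.KLS.S2

/-!
# SK: the core theorem for bounded support, from the parts
-/

set_option autoImplicit false

namespace Pool.Agent.W586.SK

open MeasureTheory Set
open scoped ENNReal InnerProductSpace
open Pool.Agent.H212R2.KLS (mu Bdd)
open Pool.Agent.H888R2.KT (LC)
open Pool.Agent.H888R2.KC (glue)

namespace Corex

theorem closed_nm {n : ℕ} (r : ℝ) : IsClosed {x : E n | nm x ≤ r} := by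
  unfold nm
  exact isClosed_le (by fun_prop) continuous_const

theorem norm_le_nm {n : ℕ} (x : E n) : ‖x‖ ≤ nm x := by
  have h0 : 0 ≤ nm x := Finset.sum_nonneg fun j _ => abs_nonneg _
  have h1 : ‖x‖ ^ 2 ≤ nm x ^ 2 := by
    rw [EuclideanSpace.real_norm_sq_eq]
    unfold nm
    have : ∀ j, x j ^ 2 = |x j| ^ 2 := fun j => (sq_abs _).symm
    simp_rw [this]
    have h2 : ∀ j ∈ (Finset.univ : Finset (Fin n)), |x j| ^ 2 ≤ |x j| * ∑ k, |x k| := by
      intro j _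
      rw [sq]
      refine mul_le_mul_of_nonneg_left ?_ (abs_nonneg _)
      exact Finset.single_le_sum (f := fun k => |x k|) (fun k _ => abs_nonneg _) (Finset.mem_univ j)
    refine (Finset.sum_le_sum h2).trans (le_of_eq ?_)
    rw [← Finset.sum_mul, sq]
  exact (abs_le_of_sq_le_sq' h1 h0).2

theorem ball_tail {n : ℕ} (hn : 1 ≤ n) (ρ : E n → ℝ) (s : ℝ) (hs : 0 < s)
    (ht : ∀ l : ℝ, 1 ≤ l → mu ρ {x | l * (540 * Real.sqrt s) * n < nm x} ≤
      ENNReal.ofReal (Real.exp (-(3 * n * (l - 1))))) (r : ℝ)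
    (hr : 2 * (540 * Real.sqrt s) * (6 * n) ≤ r) :
    mu ρ (Metric.closedBall 0 r)ᶜ ≤ ENNReal.ofReal (Real.exp (-(r / (540 * Real.sqrt s)))) := by
  have hn1 : (1:ℝ) ≤ n := by exact_mod_cast hn
  have hn0 : (0:ℝ) < n := by linarith
  have hL : 0 < 540 * Real.sqrt s := mul_pos (by norm_num) (Real.sqrt_pos.2 hs)
  obtain ⟨L, hLd⟩ : ∃ L : ℝ, L = 540 * Real.sqrt s := ⟨_, rfl⟩
  rw [← hLd] at ht hr hL ⊢
  have hl : 12 ≤ r / (L * n) := by
    rw [le_div_iff₀ (by positivity)]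
    nlinarith
  have h1 := ht (r / (L * n)) (by linarith)
  have e1 : r / (L * n) * L * n = r := by
    field_simp
  rw [e1] at h1
  refine (measure_mono ?_).trans (h1.trans (ENNReal.ofReal_le_ofReal (Real.exp_le_exp.2 ?_)))
  · intro x hx
    simp only [mem_compl_iff, Metric.mem_closedBall, dist_zero_right, not_le] at hx
    exact lt_of_lt_of_le hx (norm_le_nm x)
  · have e2 : r / L = n * (r / (L * n)) := by field_simp
    rw [e2]
    nlinarith

end Corex

open Corex in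
theorem core (hHARDY : S_HARDY) (hEVEN : S_EVEN) (hPAR : S_PAR) (hLOW : S_LOW) (hUP : S_UP)
    (hTAIL : S_TAIL) (hBAS : S_BAS) : ∃ C : ℝ, 0 < C ∧ S_CORE C := by
  obtain ⟨C₀, hC₀, hsmall⟩ := Pool.Agent.H212R2.KLS.small_l2
  refine ⟨2 * (2 * (4 * (1152 * (9 * 540)) ^ 2) + 4 * (C₀ * 540) ^ 2), by positivity, ?_⟩
  intro n ρ hn hρ hb h1 s hs hmom f hf
  have hprob : IsProbabilityMeasure (mu ρ) := ⟨h1⟩
  have hn1 : (1:ℝ) ≤ n := by exact_mod_cast hn
  have hn0 : (0:ℝ) < n := by linarith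
  have hss : 0 < Real.sqrt s := Real.sqrt_pos.2 hs
  have hball : ∃ R, (mu ρ) (Metric.closedBall 0 R)ᶜ = 0 := by
    obtain ⟨R, hR⟩ := hb
    refine ⟨R, ?_⟩
    rw [mu, withDensity_apply_eq_zero' (hρ.meas.ennreal_ofReal.aemeasurable)]
    refine measure_mono_null ?_ (measure_empty (μ := (volume : Measure (E n))))
    intro x hx
    refine hx.1 ?_
    have : R < ‖x‖ := by simpa using hx.2
    simp [hR x this]
  have htail := hTAIL ρ hn hρ hb h1 s hs (hLOW ρ hn hρ hb h1 s hs hmom) (hUP ρ hn hρ h1)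
  obtain ⟨a, ha⟩ : ∃ a : ℝ, a = 9 * (540 * Real.sqrt s) := ⟨_, rfl⟩
  have ha0 : 0 < a := by rw [ha]; positivity
  obtain ⟨U, hU⟩ : ∃ U : Set (E n), U = {x | nm x ≤ a * n} := ⟨_, rfl⟩
  have hUm : MeasurableSet U := by
    rw [hU]
    exact (closed_nm _).measurableSet
  have hUc : mu ρ Uᶜ ≤ ENNReal.ofReal (Real.exp (-(4 * (6 * n)))) := by
    have h2 := htail 9 (by norm_num)
    have e : Uᶜ = {x : E n | 9 * (540 * Real.sqrt s) * n < nm x} := by
      rw [hU, ha]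
      ext x
      simp
    rw [e]
    refine h2.trans (ENNReal.ofReal_le_ofReal (Real.exp_le_exp.2 (le_of_eq ?_)))
    ring
  have hhalf : 1 / 2 ≤ (mu ρ U).toReal := by
    have h2 : (mu ρ).real Uᶜ ≤ Real.exp (-(4 * (6 * n))) := by
      rw [measureReal_def]
      exact ENNReal.toReal_le_of_le_ofReal (Real.exp_pos _).le hUc
    rw [probReal_compl_eq_one_sub hUm] at h2
    have h3 : Real.exp (-(4 * (6 * (n:ℝ)))) ≤ 1 / 2 := by
      rw [Real.exp_neg, inv_le_comm₀ (Real.exp_pos _) (by norm_num)]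
      have := Real.add_one_le_exp (4 * (6 * (n:ℝ)))
      linarith
    rw [← measureReal_def]
    linarith
  have hres : mu (U.indicator ρ) = (mu ρ).restrict U :=
    Pool.Agent.H888R2.KT.G2x.mu_indicator ρ U hUm
  have hD : Sy (U.indicator ρ) := by
    rw [hU]
    exact (hBAS ρ hρ).1 (a * n)
  have hle : ∀ x, U.indicator ρ x ≤ ρ x := fun x =>
    Set.indicator_le_self' (fun _ _ => hρ.nonneg _) x
  have hbU : Bdd (U.indicator ρ) := by
    obtain ⟨R, hR⟩ := hb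
    refine ⟨R, fun x hx => le_antisymm ?_ (hD.nonneg x)⟩
    rw [← hR x hx]
    exact hle x
  have hfinU : mu (U.indicator ρ) univ ≠ ⊤ := by
    have := (Pool.Agent.H888R2.KT.G2x.mu_mono ρ (U.indicator ρ) hle univ).trans_eq h1
    exact ne_top_of_le_ne_top ENNReal.one_ne_top this
  have hneU : mu (U.indicator ρ) ≠ 0 := by
    intro h0
    rw [hres] at h0
    have h2 : mu ρ U = 0 := by
      rw [← Measure.restrict_apply_univ, h0]
      simp
    rw [h2] at hhalf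
    norm_num at hhalf
  have hLC : LC (U.indicator ρ) := ⟨hD.nonneg, hD.meas, hD.logc, hbU, hfinU, hneU⟩
  have hsupp : ∀ x, U.indicator ρ x ≠ 0 → nm x ≤ a * n := by
    intro x hx
    by_contra hc
    refine hx (Set.indicator_of_notMem ?_ _)
    rw [hU]
    exact hc
  have hodd : ∀ (i : Fin n) (f : E n → ℝ), ContDiff ℝ 1 f → (∀ x, f (rf i x) = - f x) →
      ∫ x, f x ^ 2 ∂(mu (U.indicator ρ)) ≤
        (1152 * a) ^ 2 * ∫ x, ‖fderiv ℝ f x‖ ^ 2 ∂(mu (U.indicator ρ)) :=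
    fun i f hf h => hHARDY _ hD hLC a ha0 hsupp i f hf h
  have hL0 : 0 < (1152 * a) ^ 2 := by positivity
  have hloc : ∀ g : E n → ℝ, ContDiff ℝ 1 g → ∃ c : ℝ, ∫ x in U, (g x - c) ^ 2 ∂(mu ρ) ≤
      (4 * (1152 * a) ^ 2) * ∫ x in U, ‖fderiv ℝ g x‖ ^ 2 ∂(mu ρ) := by
    intro g hg
    have h2 := hPAR _ hD hLC (4 * (1152 * a) ^ 2) (by positivity)
      (fun i f hf h => (hodd i f hf h).trans (mul_le_mul_of_nonneg_right (by linarith)
        (integral_nonneg fun x => by positivity)))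
      (fun u hu hu' => hEVEN _ hD hLC _ hL0 hodd u hu hu') g hg
    rwa [hres] at h2
  have hfinal := glue (mu ρ) hball (6 * n) (4 * (1152 * a) ^ 2) ((C₀ * (540 * Real.sqrt s)) ^ 2)
    (by linarith) (by positivity) (by positivity) (fun g hg hgs =>
      hsmall (mu ρ) h1 hball (fun f hf hf0 hf1 hfs r hr hBr =>
      Pool.Agent.H212R2.KLS.small_l1 volume ρ hρ.nonneg hρ.meas hρ.logc hb (mu ρ) rfl h1
        f hf hf0 hf1 hfs r hr hBr)
      (540 * Real.sqrt s) (6 * n) (by positivity) (by linarith)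
      (fun r hr => ball_tail hn ρ s hs htail r hr) g hg hgs) U hUm hUc hloc f hf
  refine hfinal.trans (le_of_eq ?_)
  have e1 : (1152 * a) ^ 2 = (1152 * (9 * 540)) ^ 2 * s := by
    rw [ha]
    have : (1152 * (9 * (540 * Real.sqrt s))) ^ 2 = (1152 * (9 * 540)) ^ 2 * (Real.sqrt s ^ 2) := by
      ring
    rw [this, Real.sq_sqrt hs.le]
  have e2 : (C₀ * (540 * Real.sqrt s)) ^ 2 = (C₀ * 540) ^ 2 * s := by
    have : (C₀ * (540 * Real.sqrt s)) ^ 2 = (C₀ * 540) ^ 2 * (Real.sqrt s ^ 2) := by ring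
    rw [this, Real.sq_sqrt hs.le]
  rw [e1, e2]
  ring

end Pool.Agent.W586.SK
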