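import Pool.Agent.W586.SK.Stm2
import Pool.Agent.H888R2.KT.G2
import Pool.Agent.H888R2.KT.V5

/-!
# SX: the core theorem for bounded support, from the parts
-/

set_option autoImplicit false

namespace Pool.Agent.W586.SX

open MeasureTheory Set
open scoped ENNReal InnerProductSpace
open Pool.Agent.H212R2.KLS (mu Bdd)
open Pool.Agent.H888R2.KT (LC St tw untiltq)
open Pool.Agent.W586.SK (E nm dv chi)
open Pool.Agent.H888R2.KT.G2x (mu_indicator integral_mu_mul mu_mono intg)

namespace CoreXx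

theorem closed_nm {n : ℕ} (r : ℝ) : IsClosed {x : E n | nm x ≤ r} := by
  unfold nm
  exact isClosed_le (by fun_prop) continuous_const

theorem orth {n : ℕ} (hn : 1 ≤ n) : Orthonormal ℝ (fun _ : Fin 1 => ee n) := by
  have hn0 : (0:ℝ) < n := by exact_mod_cast hn
  have h1 : ‖ee n‖ = 1 := by
    have h2 : ‖ee n‖ ^ 2 = 1 := by
      rw [EuclideanSpace.real_norm_sq_eq]
      have : ∀ i : Fin n, (ee n) i ^ 2 = 1 / n := by
        intro i
        show (1 / Real.sqrt n) ^ 2 = 1 / n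
        rw [div_pow, Real.sq_sqrt hn0.le, one_pow]
      simp_rw [this]
      rw [Finset.sum_const, Finset.card_univ, Fintype.card_fin, nsmul_eq_mul]
      field_simp
    have h3 : 0 ≤ ‖ee n‖ := norm_nonneg _
    nlinarith
  refine ⟨fun _ => h1, ?_⟩
  intro i j hij
  exact absurd (Subsingleton.elim i j) hij

/-- local Poincare inequality -/
theorem loc {C₁ : ℝ} (huntilt : ∀ {κ : Type} [Fintype κ] {q : ℕ}
      (ρ : EuclideanSpace ℝ κ → ℝ), LC ρ →
      ∀ e : Fin q → EuclideanSpace ℝ κ, Orthonormal ℝ e → ∀ K : ℝ, 0 < K →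
      (∀ j, ∫ x, ⟪e j, x⟫_ℝ ^ 2 ∂(mu ρ) ≤ K * (mu ρ univ).toReal) →
      (∀ (τ : EuclideanSpace ℝ (Fin q)) (f : EuclideanSpace ℝ κ → ℝ), ContDiff ℝ 1 f →
        ∃ c : ℝ, ∫ x, (f x - c) ^ 2 * tw e K τ x ∂(mu ρ) ≤
          5 * K * ∫ x, ‖fderiv ℝ f x‖ ^ 2 * tw e K τ x ∂(mu ρ)) →
      ∀ f : EuclideanSpace ℝ κ → ℝ, ContDiff ℝ 1 f →
      ∃ c : ℝ, ∫ x, (f x - c) ^ 2 ∂(mu ρ) ≤
        C₁ * (q + 1) * K * ∫ x, ‖fderiv ℝ f x‖ ^ 2 ∂(mu ρ))
    (hHARDY : S_HARDY) (hSYM : S_SYM) (hSEQ : S_SEQ) (hBAS : S_BAS)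
    {n : ℕ} (hn : 1 ≤ n) (ρ : E n → ℝ) (hρ : Sx ρ) (hb : Bdd ρ) (h1 : mu ρ univ = 1)
    (hball : ∃ R, (mu ρ) (Metric.closedBall 0 R)ᶜ = 0) (s : ℝ) (hs : 0 < s)
    (hmom : ∀ θ : E n, ∫ x, ⟪θ, x⟫_ℝ ^ 2 ∂(mu ρ) ≤ s * ‖θ‖ ^ 2) (a : ℝ)
    (ha : 0 < a) (K : ℝ) (hK : K = (24576 * a) ^ 2 + 2 * s)
    (hhalf : 1 / 2 ≤ (mu ρ {x : E n | nm x ≤ a * n}).toReal)
    (f : E n → ℝ) (hf : ContDiff ℝ 1 f) :
    ∃ c : ℝ, ∫ x in {x : E n | nm x ≤ a * n}, (f x - c) ^ 2 ∂(mu ρ) ≤
      C₁ * 2 * K * ∫ x in {x : E n | nm x ≤ a * n}, ‖fderiv ℝ f x‖ ^ 2 ∂(mu ρ) := by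
  have hprob : IsProbabilityMeasure (mu ρ) := ⟨h1⟩
  have hL0 : 0 < (24576 * a) ^ 2 := by positivity
  have hK0 : 0 < K := by rw [hK]; positivity
  have hLK : (24576 * a) ^ 2 ≤ K := by rw [hK]; linarith
  obtain ⟨U, hU⟩ : ∃ U : Set (E n), U = {x | nm x ≤ a * n} := ⟨_, rfl⟩
  rw [← hU] at hhalf ⊢
  have hUm : MeasurableSet U := by
    rw [hU]
    exact (closed_nm _).measurableSet
  have hD : Sx (U.indicator ρ) := by
    rw [hU]
    exact (hBAS ρ hρ).1 (a * n)
  obtain ⟨-, -, -, -, hTU⟩ := hBAS _ hD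
  have hres : mu (U.indicator ρ) = (mu ρ).restrict U := mu_indicator ρ U hUm
  have horth : Orthonormal ℝ (fun _ : Fin 1 => ee n) := orth hn
  have hle : ∀ x, U.indicator ρ x ≤ ρ x := fun x => Set.indicator_le_self' (fun _ _ => hρ.nonneg _) x
  have hbU : Bdd (U.indicator ρ) := by
    obtain ⟨R, hR⟩ := hb
    refine ⟨R, fun x hx => le_antisymm ?_ (hD.nonneg x)⟩
    rw [← hR x hx]
    exact hle x
  have hfinU : mu (U.indicator ρ) univ ≠ ⊤ := by
    have := (mu_mono ρ (U.indicator ρ) hle univ).trans_eq h1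
    exact ne_top_of_le_ne_top ENNReal.one_ne_top this
  have hneU : mu (U.indicator ρ) ≠ 0 := by
    intro h0
    rw [hres] at h0
    have h2 : mu ρ U = 0 := by
      rw [← Measure.restrict_apply_univ, h0]
      simp
    rw [h2] at hhalf
    norm_num at hhalf
  have hLC : LC (U.indicator ρ) := ⟨hD.nonneg, hD.meas, hD.logc, hbU, hfinU, hneU⟩
  obtain ⟨c, hc⟩ := huntilt (U.indicator ρ) hLC (fun _ : Fin 1 => ee n) horth
    K hK0 (by
      intro j
      rw [hres, Measure.restrict_apply_univ]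
      have h2 : ∫ x in U, ⟪ee n, x⟫_ℝ ^ 2 ∂(mu ρ) ≤ ∫ x, ⟪ee n, x⟫_ℝ ^ 2 ∂(mu ρ) :=
        setIntegral_le_integral (intg (mu ρ) hball _ (by fun_prop))
          (ae_of_all _ fun x => by positivity)
      have h3 := hmom (ee n)
      have h3' : ‖ee n‖ = 1 := horth.1 0
      rw [h3'] at h3
      have h4 : 2 * s ≤ K := by
        rw [hK]
        linarith
      have h5 : s ≤ K * (mu ρ U).toReal := by
        have h6 : K * (1 / 2) ≤ K * (mu ρ U).toReal := mul_le_mul_of_nonneg_left hhalf hK0.le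
        linarith
      show ∫ x in U, ⟪ee n, x⟫_ℝ ^ 2 ∂(mu ρ) ≤ K * (mu ρ U).toReal
      linarith)
    (by
      intro τ g hg
      obtain ⟨hD', hT'⟩ := hTU K hK0 τ hn
      have hw0 : ∀ x : E n, 0 ≤ tw (fun _ : Fin 1 => ee n) K τ x := fun x => (Real.exp_pos _).le
      have hwm : Measurable fun x : E n => tw (fun _ : Fin 1 => ee n) K τ x := by
        apply Continuous.measurable
        unfold tw
        fun_prop
      have hw1 : ∀ x : E n, tw (fun _ : Fin 1 => ee n) K τ x ≤ 1 := fun x => by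
        unfold tw
        rw [Real.exp_le_one_iff, neg_nonpos]
        positivity
      have hle' : ∀ x, U.indicator ρ x * tw (fun _ : Fin 1 => ee n) K τ x ≤ ρ x :=
        fun x => (mul_le_of_le_one_right (hD.nonneg x) (hw1 x)).trans (hle x)
      have hb' : Bdd (fun x => U.indicator ρ x * tw (fun _ : Fin 1 => ee n) K τ x) := by
        obtain ⟨R, hR⟩ := hbU
        exact ⟨R, fun x hx => by simp only [hR x hx, zero_mul]⟩
      have hfin' : mu (fun x => U.indicator ρ x * tw (fun _ : Fin 1 => ee n) K τ x) univ ≠ ⊤ := by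
        have := (mu_mono ρ _ hle' univ).trans_eq h1
        exact ne_top_of_le_ne_top ENNReal.one_ne_top this
      have hne' : mu (fun x => U.indicator ρ x * tw (fun _ : Fin 1 => ee n) K τ x) ≠ 0 := by
        intro h0
        refine hneU ?_
        have h2 : (mu (fun x => U.indicator ρ x * tw (fun _ : Fin 1 => ee n) K τ x)) univ = 0 := by
          rw [h0]; rfl
        rw [mu, withDensity_apply _ MeasurableSet.univ, Measure.restrict_univ,
          lintegral_eq_zero_iff (hD'.meas.ennreal_ofReal)] at h2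
        rw [mu]
        have h3 : (fun x => ENNReal.ofReal (U.indicator ρ x)) =ᵐ[volume] 0 := by
          filter_upwards [h2] with x hx
          have hx' : ENNReal.ofReal (U.indicator ρ x * tw (fun _ : Fin 1 => ee n) K τ x) = 0 := hx
          rw [ENNReal.ofReal_eq_zero] at hx'
          show ENNReal.ofReal (U.indicator ρ x) = 0
          rw [ENNReal.ofReal_eq_zero]
          by_contra hc
          rw [not_le] at hc
          have : 0 < U.indicator ρ x * tw (fun _ : Fin 1 => ee n) K τ x :=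
            mul_pos hc (Real.exp_pos _)
          linarith
        exact (withDensity_congr_ae h3).trans (by simp)
      have hLC' : LC (fun x => U.indicator ρ x * tw (fun _ : Fin 1 => ee n) K τ x) :=
        ⟨hD'.nonneg, hD'.meas, hD'.logc, hb', hfin', hne'⟩
      have hsupp : ∀ x, U.indicator ρ x * tw (fun _ : Fin 1 => ee n) K τ x ≠ 0 →
          nm x ≤ a * n := by
        intro x hx
        by_contra hc
        refine hx ?_
        have : x ∉ U := by rw [hU]; exact hc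
        rw [Set.indicator_of_notMem this, zero_mul]
      have hodd : ∀ (k l : Fin n) (f : E n → ℝ), k ≠ l → ContDiff ℝ 1 f →
          (∀ x, f (sw k l x) = - f x) → ∫ x, f x ^ 2 ∂(mu (fun x => U.indicator ρ x *
            tw (fun _ : Fin 1 => ee n) K τ x)) ≤
          (24576 * a) ^ 2 * ∫ x, ‖fderiv ℝ f x‖ ^ 2 ∂(mu (fun x => U.indicator ρ x *
            tw (fun _ : Fin 1 => ee n) K τ x)) :=
        fun k l f hkl hf h => hHARDY _ hD' hLC' a ha hsupp k l f hkl hf h
      obtain ⟨c, hc⟩ := hSEQ _ hD' hLC' (4 * K) (by positivity)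
        (fun k l f hkl hf h => (hodd k l f hkl hf h).trans (mul_le_mul_of_nonneg_right
          (by linarith) (integral_nonneg fun x => by positivity)))
        (fun u hu hu' => hSYM _ hn hD' hLC' _ hL0 hodd K hLK hT' u hu hu') g hg
      rw [integral_mu_mul _ _ _ hD.nonneg hD.meas hw0 hwm,
        integral_mu_mul _ _ _ hD.nonneg hD.meas hw0 hwm] at hc
      refine ⟨c, hc.trans (mul_le_mul_of_nonneg_right (by linarith) ?_)⟩
      exact integral_nonneg fun x => mul_nonneg (by positivity) (hw0 x))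
    f hf
  rw [hres] at hc
  refine ⟨c, hc.trans (le_of_eq ?_)⟩
  norm_num

end CoreXx

open CoreXx in
theorem core (hHARDY : S_HARDY) (hSYM : S_SYM) (hSEQ : S_SEQ) (hTAIL : S_TAIL)
    (hMULTI : S_MULTI) (hBAS : S_BAS) : ∃ C : ℝ, 0 < C ∧ S_CORE C := by
  obtain ⟨C₁, hC₁, huntilt⟩ := untiltq
  obtain ⟨C₂, hC₂, hmul⟩ := hMULTI
  refine ⟨C₂ * (C₁ * 2 * (98304 ^ 2 + 2)), by positivity, ?_⟩
  intro n ρ hn hρ hb h1 s hs hmom f hf hf1
  have hprob : IsProbabilityMeasure (mu ρ) := ⟨h1⟩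
  have hn1 : (1:ℝ) ≤ n := by exact_mod_cast hn
  have hn0 : (0:ℝ) < n := by linarith
  have hss : 0 < Real.sqrt s := Real.sqrt_pos.2 hs
  have hball : ∃ R, (mu ρ) (Metric.closedBall 0 R)ᶜ = 0 := by
    obtain ⟨R, hR⟩ := hb
    refine ⟨R, ?_⟩
    rw [mu, withDensity_apply_eq_zero' (hρ.meas.ennreal_ofReal.aemeasurable)]
    refine measure_mono_null ?_ (measure_empty (μ := (volume : Measure (E n))))
    intro x hx
    refine hx.1 ?_
    have : R < ‖x‖ := by simpa using hx.2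
    simp [hR x this]
  have hcoord : ∀ i : Fin n, ∫ x, x i ^ 2 ∂(mu ρ) ≤ s := by
    intro i
    have h2 := hmom (EuclideanSpace.single i 1)
    have h3 : ∀ x : E n, ⟪EuclideanSpace.single i (1:ℝ), x⟫_ℝ = x i := by
      intro x
      rw [EuclideanSpace.inner_single_left]
      simp
    simp_rw [h3] at h2
    simpa using h2
  have htail := hTAIL ρ hn hρ hb h1 s hs hcoord
  have hcompl : ∀ t : ℝ, ({x : E n | nm x ≤ 4 * t * Real.sqrt s * n})ᶜ =
      {x : E n | 4 * t * Real.sqrt s * n < nm x} := by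
    intro t
    ext x
    simp
  have hgoal := hmul (mu ρ) hball (fun t => {x : E n | nm x ≤ 4 * t * Real.sqrt s * n})
    (fun t => (closed_nm _).measurableSet)
    (fun t t' htt x hx => by
      have hx' : nm x ≤ 4 * t * Real.sqrt s * n := hx
      show nm x ≤ 4 * t' * Real.sqrt s * n
      refine hx'.trans ?_
      have : 4 * t * Real.sqrt s ≤ 4 * t' * Real.sqrt s :=
        mul_le_mul_of_nonneg_right (by linarith) hss.le
      exact mul_le_mul_of_nonneg_right this hn0.le)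
    (fun t ht => by
      rw [hcompl]
      exact htail t ht)
    (C₁ * 2 * (98304 ^ 2 + 2) * s) (by positivity)
    (fun t ht h hh => by
      have ht1 : 1 ≤ t := by linarith
      have hhalf : 1 / 2 ≤ (mu ρ {x : E n | nm x ≤ (4 * t * Real.sqrt s) * n}).toReal := by
        have h2 := htail t ht1
        rw [← hcompl] at h2
        have h3 : (mu ρ).real {x : E n | nm x ≤ 4 * t * Real.sqrt s * n}ᶜ ≤ Real.exp (-(t / 2)) := by
          rw [measureReal_def]
          exact ENNReal.toReal_le_of_le_ofReal (Real.exp_pos _).le h2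
        rw [probReal_compl_eq_one_sub (closed_nm _).measurableSet] at h3
        have h4 : Real.exp (-(t / 2)) ≤ 1 / 2 := by
          rw [Real.exp_neg, inv_le_comm₀ (Real.exp_pos _) (by norm_num)]
          have := Real.add_one_le_exp (t / 2)
          linarith
        rw [← measureReal_def]
        linarith
      obtain ⟨c, hc⟩ := loc huntilt hHARDY hSYM hSEQ hBAS hn ρ hρ hb h1 hball s hs hmom
        (4 * t * Real.sqrt s) (by positivity) _ rfl hhalf h hh
      refine ⟨c, hc.trans (mul_le_mul_of_nonneg_right ?_ (integral_nonneg fun x => by positivity))⟩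
      have e1 : (24576 * (4 * t * Real.sqrt s)) ^ 2 = 98304 ^ 2 * t ^ 2 * s := by
        have : (24576 * (4 * t * Real.sqrt s)) ^ 2 = 98304 ^ 2 * t ^ 2 * (Real.sqrt s ^ 2) := by
          ring
        rw [this, Real.sq_sqrt hs.le]
      rw [e1]
      have h5 : 1 ≤ t ^ 2 := one_le_pow₀ ht1
      have h6 : 98304 ^ 2 * t ^ 2 * s + 2 * s ≤ (98304 ^ 2 + 2) * s * t ^ 2 := by
        nlinarith
      have h7 : 0 ≤ C₁ * 2 := by positivity
      calc C₁ * 2 * (98304 ^ 2 * t ^ 2 * s + 2 * s) ≤ C₁ * 2 * ((98304 ^ 2 + 2) * s * t ^ 2) :=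
            mul_le_mul_of_nonneg_left h6 h7
        _ = C₁ * 2 * (98304 ^ 2 + 2) * s * t ^ 2 := by ring)
    f hf hf1
  refine hgoal.trans (le_of_eq ?_)
  ring

end Pool.Agent.W586.SX
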